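import Pool.Agent.Helper23.WC.Spec

/-!
Assembly: curves over lines exist in all weighted complete intersections of low degree.
-/

set_option autoImplicit false

namespace Pool.Agent.Helper23.WC

open MvPolynomial Pool.Agent.W600.Alg Pool.Agent.Helper23.CC

theorem wlt (hUNI : St_UNI) (hGENW : St_GENW) (hHALL : St_HALL) (hSUB : St_SUB)
    (hNRMW : St_NRMW) (hREDW : St_REDW) (hDESW : St_DESW) (hPL : St_PLACE) (hNO : St_NORM)
    {K : Type} [Field K] [IsAlgClosed K] [CharZero K] {n r s : ℕ} (hn : 1 ≤ n)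
    {e : Fin r → ℕ} (he : ∀ i, 0 < e i) {D : Fin s → ℕ} (hD : ∀ j, 1 ≤ D j)
    {H : Fin s → MvPolynomial (Fin (n + 1) ⊕ Fin r) K}
    (hH : ∀ j, IsWeightedHomogeneous (wt e) (H j) (D j)) (h0 : Fin0 H)
    (hS : ∑ j, (D j + 1) ≤ ∑ i, (e i + 1) + 2 * (n - 1)) : WLine K K e H := by
  obtain ⟨N, rfl⟩ : ∃ N, n = N + 1 := ⟨n - 1, by omega⟩
  have hS' : ∑ j, (D j + 1) ≤ ∑ i, (e i + 1) + 2 * N := by simpa using hS
  obtain ⟨ι, hι, hιe⟩ := hHALL K (N + 1) r s e D H hH hD h0
  have hgen := hGENW K N r s e D he hD ι hι hιe hS'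
  let R : Type := MvPolynomial (TT N r s) K
  let Ω : Type := AlgebraicClosure (FractionRing R)
  let g : R →+* Ω := algebraMap R Ω
  have hg : Function.Injective g := by
    have h1 : g = (algebraMap (FractionRing R) Ω).comp (algebraMap R (FractionRing R)) :=
      IsScalarTower.algebraMap_eq R (FractionRing R) Ω
    rw [h1]
    exact (algebraMap (FractionRing R) Ω).injective.comp (IsFractionRing.injective R (FractionRing R))
  let π : TT N r s → Ω := fun t => g (X t)
  obtain ⟨N1, N2, N3⟩ := hUNI N r s e D he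
  let U : Fin s → MvPolynomial (Fin (N + 1 + 1) ⊕ Fin r) Ω := fun a => UF e D π a
  have hmap : ∀ a, map g (UF e D (fun t => (X t : R)) a) = U a := fun a => N1 R Ω g _ a
  have hhom : ∀ a, IsWeightedHomogeneous (wt e) (U a) (D a) := fun a => N2 Ω π a
  let y : ((a : Fin s) × {m : Fin (N + 1 + 1) ⊕ Fin r →₀ ℕ // Finsupp.weight (wt e) m = D a}) → Ω :=
    fun p => coeff p.2.1 (U p.1)
  have hy : AlgebraicIndependent K y := by
    have := hgen.map' (f := IsScalarTower.toAlgHom K R Ω) hg
    refine (Eq.mp ?_ this)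
    congr 1
    funext p
    show g (coeff p.2.1 (UF e D (fun t => (X t : R)) p.1)) = coeff p.2.1 (U p.1)
    rw [← hmap, coeff_map]
  obtain ⟨O, hO1, hO2⟩ := hPL K Ω _ y (fun p => coeff p.2.1 (H p.1)) hy
  have hco : ∀ j I, O.valuation (coeff I (U j) - algebraMap K Ω (coeff I (H j))) < 1 := by
    intro a I
    by_cases hI : Finsupp.weight (wt e) I = D a
    · exact hO2 ⟨a, ⟨I, hI⟩⟩
    · have e1 : coeff I (U a) = 0 := (hhom a).coeff_eq_zero I hI
      have e2 : coeff I (H a) = 0 := (hH a).coeff_eq_zero I hI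
      rw [e1, e2, map_zero, sub_zero, map_zero]
      exact zero_lt_one
  have hind : ∀ x y : Ω, (∀ l, x * lpW π l + y * lqW π l = 0) → x = 0 ∧ y = 0 := by
    intro x y hxy
    have e0 := hxy 0
    have e1 := hxy 1
    have l0 : lpW π 0 = 1 := rfl
    have l1 : lpW π 1 = 0 := rfl
    have m0 : lqW π 0 = 0 := rfl
    have m1 : lqW π 1 = 1 := rfl
    rw [l0, m0] at e0
    rw [l1, m1] at e1
    constructor
    · simpa using e0
    · simpa using e1
  obtain ⟨P', Q', i, j, a, b, c, d, -, hP', hQ', hPi, hPj, hQi, hQj, hPQ⟩ :=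
    hNO Ω O (N + 1) (lpW π) (lqW π) hind
  -- the forms in the new coordinates
  choose c' hc' using fun i : Fin r =>
    hSUB Ω (e i) (fun l => π (.inl (.inr i, l))) a b c d
  have hU : ∀ q (x y : Ω), eval (Sum.elim (fun l => x * P' l + y * Q' l)
      fun i => bf (e i) (c' i) x y) (U q) = 0 := by
    intro q x y
    have h1 := N3 Ω π q (a * x + c * y) (b * x + d * y)
    have h2 : (Sum.elim (fun l => x * P' l + y * Q' l) fun i => bf (e i) (c' i) x y :
        Fin (N + 1 + 1) ⊕ Fin r → Ω) =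
        Sum.elim (fun l => (a * x + c * y) * lpW π l + (b * x + d * y) * lqW π l)
          fun i => bf (e i) (fun l => π (.inl (.inr i, l))) (a * x + c * y) (b * x + d * y) := by
      funext v
      rcases v with l | l
      · simp only [Sum.elim_inl, hP', hQ']
        ring
      · simp only [Sum.elim_inr]
        exact hc' l x y
    rw [h2]
    exact h1
  have hcO := hNRMW K Ω O (N + 1) r s e D U H P' Q' c' he hD hhom hH h0 hO1 hco hPQ hU
  obtain ⟨L, _, _, hL⟩ := hREDW K Ω O (N + 1) r s e U H P' Q' i j c' hO1 hco hPQ hPi hPj hQi hQj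
    hcO hU
  exact hDESW K L (N + 1) r s e H hL

end Pool.Agent.Helper23.WC
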