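import Pool.Agent.Helper23.CC.Spec2

/-!
Rational curves over lines in weighted complete intersections: definitions.
-/

set_option autoImplicit false

namespace Pool.Agent.Helper23.WC

open MvPolynomial Pool.Agent.W600.Alg Pool.Agent.Helper23.CC

/-- The weights: `1` for the coordinates `x i`, `e i` for the coordinates `w i`. -/
def wt {n r : ℕ} (e : Fin r → ℕ) : Fin (n + 1) ⊕ Fin r → ℕ := Sum.elim (fun _ => 1) e

/-- The cone over the variety `X` with the equations `H j = 0`; the coordinates `x` of its points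
are not all zero. -/
def WPts {k : Type} [Field k] {n r s : ℕ} (H : Fin s → MvPolynomial (Fin (n + 1) ⊕ Fin r) k) :
    Set ((Fin (n + 1) → k) × (Fin r → k)) :=
  {P | P.1 ≠ 0 ∧ ∀ j, eval (Sum.elim P.1 P.2) (H j) = 0}

/-- The only common zero of the equations with `x = 0` is the origin, that is, `X` is finite over
its image in the projective space with the coordinates `x`. -/
def Fin0 {k : Type} [Field k] {n r s : ℕ} (H : Fin s → MvPolynomial (Fin (n + 1) ⊕ Fin r) k) :
    Prop :=
  ∀ w : Fin r → k, (∀ j, eval (Sum.elim (0 : Fin (n + 1) → k) w) (H j) = 0) → w = 0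

/-- The `A`-points of the model of `X` over the subring `A` that is given by the same equations: the
coordinates are in `A`, and the coordinates `x i` generate the unit ideal. -/
def APtsW {k : Type} [Field k] {n r s : ℕ} (A : Subring k)
    (H : Fin s → MvPolynomial (Fin (n + 1) ⊕ Fin r) k) :
    Set ((Fin (n + 1) → k) × (Fin r → k)) :=
  {P | P ∈ WPts H ∧ Unim A P.1 ∧ ∀ i, P.2 i ∈ A}

/-- For every finitely generated subring `A` of `k` which contains the coefficients of the
equations there are only finitely many `A`-points of the model. -/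
def ArithHypW {k : Type} [Field k] {n r s : ℕ} (e : Fin r → ℕ)
    (H : Fin s → MvPolynomial (Fin (n + 1) ⊕ Fin r) k) : Prop :=
  ∀ t : Finset k, (∀ j, (cf (H j) : Set k) ⊆ Subring.closure (t : Set k)) →
    ∃ Z : Finset ((Fin (n + 1) → k) × (Fin r → k)),
      ∀ P ∈ APtsW (Subring.closure (t : Set k)) H, ∃ Q ∈ Z, Same e Q P

/-- The value at `(x, y)` of the binary form of degree `d` with the coefficients `c`. -/
def bf {R : Type} [CommRing R] (d : ℕ) (c : ℕ → R) (x y : R) : R :=
  ∑ l ∈ Finset.range (d + 1), c l * x ^ l * y ^ (d - l)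

/-- A curve in `X`, with coordinates in `L`, which is mapped isomorphically onto the line through
the points `P` and `Q`. -/
def WLine (K L : Type) [Field K] [Field L] [Algebra K L] {n r s : ℕ} (e : Fin r → ℕ)
    (H : Fin s → MvPolynomial (Fin (n + 1) ⊕ Fin r) K) : Prop :=
  ∃ (P Q : Fin (n + 1) → L) (i j : Fin (n + 1)) (c : Fin r → ℕ → L),
    P i = 1 ∧ P j = 0 ∧ Q i = 0 ∧ Q j = 1 ∧
    ∀ a (x y : L), aeval (Sum.elim (fun l => x * P l + y * Q l) fun i => bf (e i) (c i) x y)
      (H a) = 0

/-! ### The universal family of equations vanishing on a curve -/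

/-- The coordinates which are forms on the curve. -/
abbrev Cv (N r : ℕ) : Type := Fin N ⊕ Fin r

/-- Their degrees. -/
def om {N r : ℕ} (e : Fin r → ℕ) : Cv N r → ℕ := Sum.elim (fun _ => 1) e

/-- The coordinate. -/
def iv {N r : ℕ} : Cv N r → Fin (N + 1 + 1) ⊕ Fin r := Sum.map (fun j => j.succ.succ) id

/-- The parameters: the coefficients of the forms and the coefficients of the equations. -/
abbrev TT (N r s : ℕ) : Type := (Cv N r × ℕ) ⊕ (Fin s × (Fin (N + 1 + 1) ⊕ Fin r →₀ ℕ))

/-- The exponents of weight `D`. -/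
noncomputable def wset {n r : ℕ} (e : Fin r → ℕ) (D : ℕ) :
    Finset (Fin (n + 1) ⊕ Fin r →₀ ℕ) := by
  classical
  exact if h : {m : Fin (n + 1) ⊕ Fin r →₀ ℕ | Finsupp.weight (wt e) m = D}.Finite then
    h.toFinset else ∅

/-- The monomial contains one of the coordinates which are forms on the curve. -/
def nb {N r : ℕ} (m : Fin (N + 1 + 1) ⊕ Fin r →₀ ℕ) : Prop := ∃ c : Cv N r, m (iv c) ≠ 0

/-- The binary form with the coefficients `c` in the coordinates `x 0`, `x 1`. -/
noncomputable def bfm {R : Type} [CommRing R] {N r : ℕ} (d : ℕ) (c : ℕ → R) :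
    MvPolynomial (Fin (N + 1 + 1) ⊕ Fin r) R :=
  ∑ l ∈ Finset.range (d + 1), C (c l) * X (Sum.inl 0) ^ l * X (Sum.inl 1) ^ (d - l)

/-- The curve. -/
noncomputable def crv {R : Type} [CommRing R] {N r s : ℕ} (e : Fin r → ℕ) (π : TT N r s → R) :
    Fin (N + 1 + 1) ⊕ Fin r → MvPolynomial (Fin (N + 1 + 1) ⊕ Fin r) R :=
  Sum.elim (Fin.cons (X (Sum.inl 0)) (Fin.cons (X (Sum.inl 1))
    fun j => bfm 1 fun l => π (.inl (.inl j, l)))) fun i => bfm (e i) fun l => π (.inl (.inr i, l))

/-- The part of the equation without the binary monomials. -/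
noncomputable def Gen0 {R : Type} [CommRing R] {N r s : ℕ} (e : Fin r → ℕ) (D : Fin s → ℕ)
    (π : TT N r s → R) (a : Fin s) : MvPolynomial (Fin (N + 1 + 1) ⊕ Fin r) R := by
  classical
  exact ∑ m ∈ (wset e (D a)).filter nb, monomial m (π (.inr (a, m)))

/-- The universal equation which vanishes on the curve. -/
noncomputable def UF {R : Type} [CommRing R] {N r s : ℕ} (e : Fin r → ℕ) (D : Fin s → ℕ)
    (π : TT N r s → R) (a : Fin s) : MvPolynomial (Fin (N + 1 + 1) ⊕ Fin r) R :=
  Gen0 e D π a - bind₁ (crv e π) (Gen0 e D π a)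

/-- The first point of the line. -/
def lpW {R : Type} [CommRing R] {N r s : ℕ} (π : TT N r s → R) : Fin (N + 1 + 1) → R :=
  Fin.cons 1 (Fin.cons 0 fun j => π (.inl (.inl j, 1)))

/-- The second point of the line. -/
def lqW {R : Type} [CommRing R] {N r s : ℕ} (π : TT N r s → R) : Fin (N + 1 + 1) → R :=
  Fin.cons 0 (Fin.cons 1 fun j => π (.inl (.inl j, 0)))

/-- The exponent of `X 0 ^ p * X 1 ^ q`. -/
noncomputable def bi {N r : ℕ} (p q : ℕ) : Fin (N + 1 + 1) ⊕ Fin r →₀ ℕ :=
  Finsupp.single (Sum.inl 0) p + Finsupp.single (Sum.inl 1) q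

/-- The variation of the form `c`, dehomogenised. -/
noncomputable def dl {K : Type} [Field K] {N r s : ℕ} (e : Fin r → ℕ) (v : TT N r s → K)
    (c : Cv N r) : Polynomial K :=
  ∑ l ∈ Finset.range (om e c + 1), Polynomial.C (v (.inl (c, l))) * Polynomial.X ^ l

/-- The coefficient of the coordinate `c` in the equation `a`, dehomogenised. -/
noncomputable def BB {K : Type} [Field K] {N r s : ℕ} (e : Fin r → ℕ) (D : Fin s → ℕ)
    (x : TT N r s → K) (a : Fin s) (c : Cv N r) : Polynomial K :=
  if om e c ≤ D a then ∑ q ∈ Finset.range (D a - om e c + 1),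
    Polynomial.C (x (.inr (a, bi q (D a - om e c - q) + Finsupp.single (iv c) 1))) *
      Polynomial.X ^ q
  else 0

end Pool.Agent.Helper23.WC
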