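import Pool.Agent.Helper23.WC.Defs

/-!
Rational curves over lines in weighted complete intersections: statements of the parts.
-/

set_option autoImplicit false

namespace Pool.Agent.Helper23.WC

open MvPolynomial Pool.Agent.W600.Alg Pool.Agent.Helper23.CC

/-- FINW (40): the exponents of weight `D` form a finite set (`Finsupp.finite_of_nat_weight_eq` or
similar), so `mem_wset`. -/
def St_FINW : Prop :=
  ∀ (n r : ℕ) (e : Fin r → ℕ), (∀ i, 0 < e i) → ∀ (D : ℕ) (m : Fin (n + 1) ⊕ Fin r →₀ ℕ),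
    m ∈ wset e D ↔ Finsupp.weight (wt e) m = D

/-- UNI (150): base change, weighted homogeneity and vanishing on the curve. -/
def St_UNI : Prop :=
  ∀ (N r s : ℕ) (e : Fin r → ℕ) (D : Fin s → ℕ), (∀ i, 0 < e i) →
    (∀ (R R' : Type) [CommRing R] [CommRing R'] (φ : R →+* R') (π : TT N r s → R) (a : Fin s),
      map φ (UF e D π a) = UF e D (fun t => φ (π t)) a) ∧
    (∀ (R : Type) [CommRing R] (π : TT N r s → R) (a : Fin s),
      IsWeightedHomogeneous (wt e) (UF e D π a) (D a)) ∧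
    ∀ (R : Type) [CommRing R] (π : TT N r s → R) (a : Fin s) (x y : R),
      eval (Sum.elim (fun l => x * lpW π l + y * lqW π l)
        fun i => bf (e i) (fun l => π (.inl (.inr i, l))) x y) (UF e D π a) = 0

/-- NBC (80): the coefficients of the universal equations at the nonbinary monomials. -/
def St_NBC : Prop :=
  ∀ (N r s : ℕ) (e : Fin r → ℕ) (D : Fin s → ℕ), (∀ i, 0 < e i) →
    ∀ (R : Type) [CommRing R] (π : TT N r s → R) (a : Fin s)
      (m : Fin (N + 1 + 1) ⊕ Fin r →₀ ℕ), Finsupp.weight (wt e) m = D a → nb m →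
      coeff m (UF e D π a) = π (.inr (a, m))

/-- D1 (250): the first-order terms of the coefficients at the binary monomials, at the curve on
which all the forms are `0`. -/
def St_D1 : Prop :=
  ∀ (K : Type) [Field K] (N r s : ℕ) (e : Fin r → ℕ) (D : Fin s → ℕ), (∀ i, 0 < e i) →
    ∀ (x v : TT N r s → K), (∀ c, x (.inl c) = 0) → ∀ (a : Fin s) (p : ℕ), p ≤ D a →
    TrivSqZeroExt.snd (coeff (bi p (D a - p)) (UF e D (dual x v) a)) =
      -(∑ c, dl e v c * BB e D x a c).coeff p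

/-- BIN (150): the differential is surjective at a suitable point (from `St_ALG`). -/
def St_BIN : Prop :=
  ∀ (K : Type) [Field K] [CharZero K] (N r s : ℕ) (e : Fin r → ℕ) (D : Fin s → ℕ),
    (∀ i, 0 < e i) → (∀ a, 1 ≤ D a) → ∀ ι : Fin r → Fin s, Function.Injective ι →
    (∀ i, e i ≤ D (ι i)) → ∑ a, (D a + 1) ≤ ∑ i, (e i + 1) + 2 * N →
    ∃ B : Fin s → Cv N r → Polynomial K,
      (∀ a c, B a c = 0 ∨ (B a c).natDegree + om e c ≤ D a) ∧
      ∀ f : Fin s → Polynomial K, (∀ a, (f a).natDegree ≤ D a) →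
        ∃ δ : Cv N r → Polynomial K, (∀ c, (δ c).natDegree ≤ om e c) ∧
          ∀ a, f a = ∑ c, δ c * B a c

/-- GENW (150, from FINW, UNI, NBC, D1, BIN, JAC): the coefficients of the universal equations are
algebraically independent. -/
def St_GENW : Prop :=
  ∀ (K : Type) [Field K] [CharZero K] (N r s : ℕ) (e : Fin r → ℕ) (D : Fin s → ℕ),
    (∀ i, 0 < e i) → (∀ a, 1 ≤ D a) → ∀ ι : Fin r → Fin s, Function.Injective ι →
    (∀ i, e i ≤ D (ι i)) → ∑ a, (D a + 1) ≤ ∑ i, (e i + 1) + 2 * N →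
    AlgebraicIndependent K fun p : (a : Fin s) ×
      {m : Fin (N + 1 + 1) ⊕ Fin r →₀ ℕ // Finsupp.weight (wt e) m = D a} =>
      coeff p.2.1 (UF e D (fun t => (X t : MvPolynomial (TT N r s) K)) p.1)

/-- HALL (120): Hall's theorem and the theorem on common zeros. -/
def St_HALL : Prop :=
  ∀ (K : Type) [Field K] [IsAlgClosed K] (n r s : ℕ) (e : Fin r → ℕ) (D : Fin s → ℕ)
    (H : Fin s → MvPolynomial (Fin (n + 1) ⊕ Fin r) K),
    (∀ j, IsWeightedHomogeneous (wt e) (H j) (D j)) → (∀ j, 1 ≤ D j) → Fin0 H →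
    ∃ ι : Fin r → Fin s, Function.Injective ι ∧ ∀ i, e i ≤ D (ι i)

/-- TRF (50): the finiteness holds over all extension fields (Nullstellensatz). -/
def St_TRF : Prop :=
  ∀ (K L : Type) [Field K] [IsAlgClosed K] [Field L] [Algebra K L] (n r s : ℕ)
    (H : Fin s → MvPolynomial (Fin (n + 1) ⊕ Fin r) K), Fin0 H →
    Fin0 fun j => map (algebraMap K L) (H j)

/-- SUB (60): linear substitutions in binary forms. -/
def St_SUB : Prop :=
  ∀ (R : Type) [CommRing R] (d : ℕ) (c : ℕ → R) (a b c' e : R),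
    ∃ c₁ : ℕ → R, ∀ x y : R, bf d c₁ x y = bf d c (a * x + c' * y) (b * x + e * y)

/-- NRMW (200, from TRF): the coefficients of the forms are integral. -/
def St_NRMW : Prop :=
  ∀ (K Ω : Type) [Field K] [IsAlgClosed K] [CharZero K] [Field Ω] [IsAlgClosed Ω] [Algebra K Ω]
    (O : ValuationSubring Ω) (n r s : ℕ) (e : Fin r → ℕ) (D : Fin s → ℕ)
    (H : Fin s → MvPolynomial (Fin (n + 1) ⊕ Fin r) Ω)
    (F : Fin s → MvPolynomial (Fin (n + 1) ⊕ Fin r) K) (P Q : Fin (n + 1) → Ω)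
    (c : Fin r → ℕ → Ω), (∀ i, 0 < e i) → (∀ j, 1 ≤ D j) →
    (∀ j, IsWeightedHomogeneous (wt e) (H j) (D j)) →
    (∀ j, IsWeightedHomogeneous (wt e) (F j) (D j)) → Fin0 F →
    (∀ c : K, algebraMap K Ω c ∈ O) →
    (∀ j I, O.valuation (coeff I (H j) - algebraMap K Ω (coeff I (F j))) < 1) →
    (∀ l, P l ∈ O ∧ Q l ∈ O) →
    (∀ j (x y : Ω), eval (Sum.elim (fun l => x * P l + y * Q l)
      fun i => bf (e i) (c i) x y) (H j) = 0) →
    ∀ i l, l ≤ e i → c i l ∈ O

/-- REDW (120): reduction modulo the maximal ideal (compare `Pool.Agent.Helper75.CC` RED). -/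
def St_REDW : Prop :=
  ∀ (K Ω : Type) [Field K] [CharZero K] [Field Ω] [Algebra K Ω]
    (O : ValuationSubring Ω) (n r s : ℕ) (e : Fin r → ℕ)
    (H : Fin s → MvPolynomial (Fin (n + 1) ⊕ Fin r) Ω)
    (F : Fin s → MvPolynomial (Fin (n + 1) ⊕ Fin r) K) (P Q : Fin (n + 1) → Ω)
    (i j : Fin (n + 1)) (c : Fin r → ℕ → Ω),
    (∀ c : K, algebraMap K Ω c ∈ O) →
    (∀ j I, O.valuation (coeff I (H j) - algebraMap K Ω (coeff I (F j))) < 1) →
    (∀ l, P l ∈ O ∧ Q l ∈ O) → P i = 1 → P j = 0 → Q i = 0 → Q j = 1 →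
    (∀ i l, l ≤ e i → c i l ∈ O) →
    (∀ j (x y : Ω), eval (Sum.elim (fun l => x * P l + y * Q l)
      fun i => bf (e i) (c i) x y) (H j) = 0) →
    ∃ (L : Type) (_ : Field L) (_ : Algebra K L), WLine K L e F

/-- DESW (80): descent to an algebraically closed field (compare `Pool.Agent.Helper44.CC` DESC). -/
def St_DESW : Prop :=
  ∀ (K L : Type) [Field K] [IsAlgClosed K] [Field L] [Algebra K L] (n r s : ℕ) (e : Fin r → ℕ)
    (H : Fin s → MvPolynomial (Fin (n + 1) ⊕ Fin r) K), WLine K L e H → WLine K K e H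

/-- FINR (80): a rational curve contradicts both properties. -/
def St_FINR : Prop :=
  ∀ (K : Type) [Field K] [IsAlgClosed K] [CharZero K] (n r s : ℕ) (e : Fin r → ℕ)
    (H : Fin s → MvPolynomial (Fin (n + 1) ⊕ Fin r) K), WLine K K e H →
    ¬ Ratless e (WPts H) ∧ ¬ Groupless e (WPts H)

/-- FINA (80): a rational curve contradicts arithmetic hyperbolicity. -/
def St_FINA : Prop :=
  ∀ (K : Type) [Field K] [IsAlgClosed K] [CharZero K] (n r s : ℕ) (e : Fin r → ℕ)
    (H : Fin s → MvPolynomial (Fin (n + 1) ⊕ Fin r) K), WLine K K e H → ¬ ArithHypW e H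

end Pool.Agent.Helper23.WC
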